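import Pool.Agent.U365.POW.E
import Pool.Agent.Results.MP_4ab349_nt.SequenceMembers
import Pool.Agent.U951.TR.Nat

/-!
# The inequality `T < - η √(log c)` for all abc-triples with a member near `s(m)`, `m - φ(m)` or `α m + β f(m)`

For an abc-triple `a + b = c` let `T(a, b, c) = log (c / rad(abc)) / √(log c)`. Let `A ≥ 1`, `0 ≤ η < 7 / 9` and `K`
real, and let `F(η) = 5 (10 η + 9) / 84` for `η ≤ 1 / 2` and `(9 η + 8) / 15` for `η > 1 / 2` (`SequenceMembers.f`).
Let `s(m)` be the sum of the proper divisors of `m`. Let `G` have steps bounded below by a positive constant and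
growth at most `v ^ d`, for example `G v = v`, `A ≥ 1`, `0 ≤ η < 7 / 9`, `K` real, `θ ≥ 0` and `e = d A F(η) + θ < 1`.
For a set of `m` of lower density at least `1 - e`: ALL abc-triples with a member `m` which differs from `G (s(m))` by
at most `s(m) ^ θ`, and with `c ≤ m ^ A`, satisfy `T(a, b, c) < - η √(log c) - K / √(log c)`, that is `rad(abc) > e^K
c^(1 + η)`; and the same holds for `m - φ(m)` in place of `s(m)`. More precisely this holds for almost all `m` with a
divisor `≥ m ^ (e + ρ)` which is a prime or the product of two different primes, and for the values `g = α m + β f(m)`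
of multiplicative functions with `f p = p + c` at the primes, uniformly in `|α|, |β| ≤ N ^ δ` and with a power saving
in the number of the exceptional `m`.

The question asks for `T < 1`; already for `η = 0` the inequality is stronger than this. Proof. The members of the
exceptional triples are counted in `Pool.Agent.Y854.AB.count` (a starting library): there are at most `X ^ (A F(η) +
ε)` of them up to `X`. Let `m = k v p` with large primes `p ≠ v`. Then `g = A v p + B (v + p) + B c`, `A = α k + β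
f(k)`, `B = β c f(k)`, and so `(A v + B) (A p + B) = A g + B² - A B c`: for given `g`, `k`, `α`, `β` there are only
`N^o(1)` possibilities for `p` and `v` (tool `Pool.Agent.U365.POW`).
-/

set_option autoImplicit false

namespace Pool.Agent.Results.MP_4ab349_nt.AliquotValues

open SequenceMembers (Good T rad)
open Pool.Agent.U365.POW (Values Dens values_set values_mono dens_mono)
open Pool.Agent.N733.TG (Expanding)

/-- all abc-triples with a member `m`, `|m - G v| ≤ v ^ θ`, and `c ≤ m ^ A` satisfy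
`T(a, b, c) < - η √(log c) - K / √(log c)` -/
def Near (A η K : ℝ) (G : ℕ → ℝ) (θ : ℝ) (v : ℕ) : Prop :=
  ∀ m : ℕ, |(m : ℝ) - G v| ≤ (v : ℝ) ^ θ → Good A η K m

lemma s_nonneg {A η : ℝ} (hA : 1 ≤ A) (hη : 0 ≤ η) : 0 ≤ A * SequenceMembers.f η := by
  refine mul_nonneg (by linarith) ?_
  unfold SequenceMembers.f
  split_ifs <;> positivity

lemma count {A η : ℝ} (K : ℝ) (hA : 1 ≤ A) (hη : 0 ≤ η) (hη1 : η < 7 / 9) (ε : ℝ) (hε : 0 < ε) :
    ∃ C : ℝ, ∀ X : ℝ, 1 ≤ X →
      {t : ℕ | t ∈ {t : ℕ | 1 ≤ t ∧ t ∈ Pool.Agent.Y854.AB.Bad (Real.exp K) (1 + η) A} ∧ (t : ℝ) ≤ X}.Finite ∧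
      ({t : ℕ | t ∈ {t : ℕ | 1 ≤ t ∧ t ∈ Pool.Agent.Y854.AB.Bad (Real.exp K) (1 + η) A} ∧ (t : ℝ) ≤ X}.ncard : ℝ) ≤
        C * X ^ (A * SequenceMembers.f η + ε) := by
  refine Pool.Agent.U951.TR.count_of_card _ (s_nonneg hA hη) (fun ξ hξ => ?_) ε hε
  obtain ⟨C, hC⟩ := Pool.Agent.Y854.AB.count (Real.exp K) (1 + η) A (by linarith) (by linarith) ξ hξ
  rw [SequenceMembers.Fx_eq η hη hη1] at hC
  exact ⟨C, hC⟩

lemma near_of {A η K θ : ℝ} {G : ℕ → ℝ} {v : ℕ}
    (h : ∀ t ∈ {t : ℕ | 1 ≤ t ∧ t ∈ Pool.Agent.Y854.AB.Bad (Real.exp K) (1 + η) A}, ¬ |(t : ℝ) - G v| ≤ (v : ℝ) ^ θ) :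
    Near A η K G θ v := by
  intro m hm
  apply SequenceMembers.good_of
  intro hb
  refine h m ⟨?_, hb⟩ hm
  obtain ⟨a, b, ha, hb, -, h1, -⟩ := hb
  omega

/-- **Theorem.** Let `G` have steps `≥ a > 0` and growth at most `v ^ d`, `A ≥ 1`, `0 ≤ η < 7 / 9`, `K` real, `θ ≥ 0` and
`e = d A F(η) + θ < 1`. For every `ρ > 0` the property `Near` holds for the values of similar functions as the aliquot
sum (`Values`: for `s(m)`, for `m - φ(m)` and for all `α m + β f(m)`, for almost all the `m` with a divisor `≥ m ^ (e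
+ ρ)` which is a prime or the product of two different primes), and it holds for `s(m)` and `m - φ(m)` for a set of
`m` of lower density at least `1 - e`. -/
theorem result : ∀ (G : ℕ → ℝ) (d : ℝ), Expanding G d → ∀ (A η K : ℝ) (θ : ℝ),
    1 ≤ A → 0 ≤ η → η < 7 / 9 → 0 ≤ θ → d * (A * SequenceMembers.f η) + θ < 1 →
    (∀ ρ : ℝ, 0 < ρ → Values (d * (A * SequenceMembers.f η) + θ + ρ) (Near A η K G θ)) ∧
      Dens (1 - (d * (A * SequenceMembers.f η) + θ)) (Near A η K G θ) := by
  intro G d hG A η K θ hA hη hη1 hθ h1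
  obtain ⟨h2, h3⟩ := values_set {t : ℕ | 1 ≤ t ∧ t ∈ Pool.Agent.Y854.AB.Bad (Real.exp K) (1 + η) A} (fun t : ℕ => (t : ℝ)) hG (s := (A * SequenceMembers.f η)) (s_nonneg hA hη) hθ h1
    (count K hA hη hη1)
  have hm : ∀ g : ℕ, (∀ t : ℕ, |(t : ℝ) - G g| ≤ (g : ℝ) ^ θ → t ∉ {t : ℕ | 1 ≤ t ∧ t ∈ Pool.Agent.Y854.AB.Bad (Real.exp K) (1 + η) A}) → Near A η K G θ g :=
    fun g hg => near_of (fun t ht hw => hg t hw ht)
  exact ⟨fun ρ hρ => values_mono (h2 ρ hρ) hm, dens_mono h3 le_rfl hm⟩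

end Pool.Agent.Results.MP_4ab349_nt.AliquotValues
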