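import Pool.Agent.U536.CF.F
import Pool.Agent.Results.MP_4ab349_nt.SequenceMembers
import Pool.Agent.U951.TR.Nat

/-!
# The inequality `T < - η √(log c)` for all abc-triples with a member near an integer with a large common factor with a value of `f`

For an abc-triple `a + b = c` let `T(a, b, c) = log (c / rad(abc)) / √(log c)`. Let `A ≥ 1`, `0 ≤ η < 7 / 9` and `K`
real, and let `F(η) = 5 (10 η + 9) / 84` for `η ≤ 1 / 2` and `(9 η + 8) / 15` for `η > 1 / 2` (`SequenceMembers.f`).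
Let `f` be a positive multiplicative function of at most polynomial growth such that `f p ≤ M p` for the large primes
`p`, with different values at different large primes; for example Euler's function or the sum of the divisors. Let `G`
have steps bounded below by a positive constant and growth at most `v^d`, for example `α v^d`. Let `b < 1` and `0 ≤ c
< 2 b - 1`. For all `m ≤ N` but `N exp (-(log N)^c)`, for EVERY integer `w ≥ exp ((log N)^b)` with `gcd(w, f(m)) ≥
w^ρ`: ALL abc-triples with a member `m` which differs from `G w` by at most `w ^ θ`, and with `c ≤ m ^ A`, satisfy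
`T(a, b, c) < - η √(log c) - K / √(log c)`, that is `rad(abc) > e^K c^(1 + η)`, if `A ≥ 1`, `0 ≤ η < 7 / 9`, `K` real,
`θ ≥ 0` and `d A F(η) + θ < ρ ≤ 1`. The integers `w` include all large divisors of `f(m)` and their multiples by small
integers; for Euler's function, the orders of the elements of the group of units modulo `m`.

The question asks for `T < 1`; already for `η = 0` the inequality is stronger than this. Proof. The tool
`Pool.Agent.U536.CF` bounds the number of the `m ≤ N` for which such a `w` lies in a given set with a power saving, by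
Hölder's inequality for the number of the ordered factorizations. The members of the exceptional triples are counted
in `Pool.Agent.Y854.AB.count` (a starting library): there are at most `X ^ (A F(η) + ε)` of them up to `X`.
-/

set_option autoImplicit false

namespace Pool.Agent.Results.MP_4ab349_nt.CommonFactors

open SequenceMembers (Good T rad)
open Pool.Agent.N733.TG (LM Expanding lm_totient lm_sigma expanding_pow)
open Pool.Agent.U536.CF (Common common_windows common_of_dvd common_order)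

/-- all abc-triples with a member `m`, `|m - G v| ≤ v ^ θ`, and `c ≤ m ^ A` satisfy
`T(a, b, c) < - η √(log c) - K / √(log c)` -/
def Near (A η K : ℝ) (G : ℕ → ℝ) (θ : ℝ) (v : ℕ) : Prop :=
  ∀ m : ℕ, |(m : ℝ) - G v| ≤ (v : ℝ) ^ θ → Good A η K m

lemma s_nonneg {A η : ℝ} (hA : 1 ≤ A) (hη : 0 ≤ η) : 0 ≤ A * SequenceMembers.f η := by
  refine mul_nonneg (by linarith) ?_
  unfold SequenceMembers.f
  split_ifs <;> positivity

lemma count {A η : ℝ} (K : ℝ) (hA : 1 ≤ A) (hη : 0 ≤ η) (hη1 : η < 7 / 9) (ε : ℝ) (hε : 0 < ε) :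
    ∃ C : ℝ, ∀ X : ℝ, 1 ≤ X →
      {t : ℕ | t ∈ {t : ℕ | 1 ≤ t ∧ t ∈ Pool.Agent.Y854.AB.Bad (Real.exp K) (1 + η) A} ∧ (t : ℝ) ≤ X}.Finite ∧
      ({t : ℕ | t ∈ {t : ℕ | 1 ≤ t ∧ t ∈ Pool.Agent.Y854.AB.Bad (Real.exp K) (1 + η) A} ∧ (t : ℝ) ≤ X}.ncard : ℝ) ≤
        C * X ^ (A * SequenceMembers.f η + ε) := by
  refine Pool.Agent.U951.TR.count_of_card _ (s_nonneg hA hη) (fun ξ hξ => ?_) ε hε
  obtain ⟨C, hC⟩ := Pool.Agent.Y854.AB.count (Real.exp K) (1 + η) A (by linarith) (by linarith) ξ hξ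
  rw [SequenceMembers.Fx_eq η hη hη1] at hC
  exact ⟨C, hC⟩

lemma near_of {A η K θ : ℝ} {G : ℕ → ℝ} {v : ℕ}
    (h : ∀ t ∈ {t : ℕ | 1 ≤ t ∧ t ∈ Pool.Agent.Y854.AB.Bad (Real.exp K) (1 + η) A}, ¬ |(t : ℝ) - G v| ≤ (v : ℝ) ^ θ) :
    Near A η K G θ v := by
  intro m hm
  apply SequenceMembers.good_of
  intro hb
  refine h m ⟨?_, hb⟩ hm
  obtain ⟨a, b, ha, hb, -, h1, -⟩ := hb
  omega

/-- **The inequality `T < - η √(log c)` for all abc-triples with a member near all integers with a large common factor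
with a value of a multiplicative function.** Let `f` be multiplicative and positive, of at most polynomial growth,
with `f p ≤ M p` at the large primes, and injective there. Let `G` have steps `≥ a > 0` and growth at most `v^d`. Let
`b < 1` and `0 ≤ c < 2 b - 1`, `A ≥ 1`, `0 ≤ η < 7 / 9`, `K` real, `θ ≥ 0` and `d A F(η) + θ < ρ ≤ 1`. For all large
`N`, for all `m ≤ N` but `N exp (-(log N)^c)`, the property `Near` holds at EVERY integer `w ≥ exp ((log N)^b)` with
`gcd(w, f(m)) ≥ w^ρ`. All divisors `w ≥ exp ((log N)^b)` of `f(m)` are such integers `w`, and for Euler's function the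
orders `≥ exp ((log N)^b)` of the units modulo `m`. Euler's function and the sum of the divisors are examples of `f`,
and `α v^d` with `α > 0`, `d ≥ 1` is an example of `G`. -/
theorem result :
    (∀ f : ℕ → ℕ, LM f → ∀ (G : ℕ → ℝ) (d : ℝ), Expanding G d → ∀ (A η K : ℝ)
      (θ ρ b c : ℝ), 1 ≤ A → 0 ≤ η → η < 7 / 9 → 0 ≤ θ → d * (A * SequenceMembers.f η) + θ < ρ → ρ ≤ 1 → b < 1 → 0 ≤ c → c < 2 * b - 1 →
      ∃ N₀ : ℕ, ∀ N : ℕ, N₀ ≤ N →
        ({m : ℕ | 1 ≤ m ∧ m ≤ N ∧ ¬ ∀ w : ℕ, Common f b ρ N m w → Near A η K G θ w}.ncard : ℝ) ≤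
          N * Real.exp (-(Real.log N ^ c))) ∧
    (LM Nat.totient ∧ LM (fun m => ∑ d ∈ m.divisors, d)) ∧
    (∀ α d : ℝ, 0 < α → 1 ≤ d → Expanding (fun v => α * (v : ℝ) ^ d) d) ∧
    (∀ (f : ℕ → ℕ) (b ρ : ℝ) (N m w : ℕ), ρ ≤ 1 → Real.exp (Real.log N ^ b) ≤ (w : ℝ) → w ∣ f m → Common f b ρ N m w) ∧
    ∀ (b ρ : ℝ) (N m : ℕ), ρ ≤ 1 → ∀ x : (ZMod m)ˣ, Real.exp (Real.log N ^ b) ≤ (orderOf x : ℝ) →
      Common Nat.totient b ρ N m (orderOf x) := by
  refine ⟨?_, ⟨lm_totient, lm_sigma⟩, fun α d hα hd => expanding_pow hα hd, fun f b ρ N m w hρ hw hd => common_of_dvd hρ hw hd,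
    fun b ρ N m hρ x hx => common_order hρ x hx⟩
  intro f hf G d hG A η K θ ρ b c hA hη hη1 hθ h1 hρ hb hc hcb
  obtain ⟨N₀, hN₀⟩ := common_windows {t : ℕ | 1 ≤ t ∧ t ∈ Pool.Agent.Y854.AB.Bad (Real.exp K) (1 + η) A} (fun t : ℕ => (t : ℝ)) hf hG (s := (A * SequenceMembers.f η)) (s_nonneg hA hη) hθ h1 hρ hb hc hcb
    (count K hA hη hη1)
  refine ⟨N₀, fun N hN => le_trans (Nat.cast_le.2 (Set.ncard_le_ncard ?_ ?_)) (hN₀ N hN)⟩
  · rintro m ⟨h2, h3, h4⟩
    push Not at h4
    obtain ⟨w, hw, h5⟩ := h4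
    refine ⟨h2, h3, w, hw, ?_⟩
    by_contra hcon
    push Not at hcon
    exact h5 (near_of (fun t ht => not_le.2 (hcon t ht)))
  · exact (Set.finite_Icc 1 N).subset fun m hm => ⟨hm.1, hm.2.1⟩

end Pool.Agent.Results.MP_4ab349_nt.CommonFactors
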