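import Mathlib
import Pool.Agent.U964.ML.ExplK
import Pool.Agent.U964.ML.Trip

/-!
# The inequality `rad (a b c) > c ^ (1 - 1 / √(log c))`, with no threshold for `c`, when two members are near high powers

Let `(a, b, c)` be an abc-triple two members of which are `B X ^ n` and `A Y ^ n`, `A, B ≤ exp H`, `X`, `Y` not both
equal to `1`, and

`10 ^ 7 H (2 + log n) ^ 2 √(log c) ≤ n`

(this holds if `log X, log Y ≤ n / (10 ^ 15 H ^ 2 (2 + log n) ^ 4)`). We prove that the third member `z` satisfies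
`z ≥ c ^ (1 - 1 / √(log c))`; hence the inequality of the problem, in its exact form, holds for the triple if
`z / rad z < rad (x y)`, for instance if `z` is square-free.

The proof is by a lower bound for `n log (X / Y) - log (A / B)` which is explicit and linear in both heights
(`U964.ML.Two`).
-/

set_option autoImplicit false

namespace Pool.Agent.Results.MP_4ab349_nt.ExplicitHighPowers

/-- the product of the distinct primes dividing `m` -/
def radical (m : ℕ) : ℕ := ∏ q ∈ m.primeFactors, q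

/-- coprime positive integers with `a + b = c` -/
def IsTriple (a b c : ℕ) : Prop := 1 ≤ a ∧ 1 ≤ b ∧ Nat.Coprime a b ∧ a + b = c

/-- `x`, `y` are two members of the triple `(a, b, c)` and `z` is the third member -/
def Members (a b c x y z : ℕ) : Prop :=
  (x = a ∧ y = b ∧ z = c) ∨ (x = a ∧ y = c ∧ z = b) ∨ (x = b ∧ y = c ∧ z = a)

theorem result (n H : ℕ) (hn1 : 1 ≤ n) (hH : 1 ≤ H) (a b c x y z : ℕ) (ht : IsTriple a b c)
    (hm : Members a b c x y z ∨ Members a b c y x z) (A B X Y : ℕ) (hAH : Real.log A ≤ H)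
    (hBH : Real.log B ≤ H) (hx : x = B * X ^ n) (hy : y = A * Y ^ n) (hXY : ¬ (X = 1 ∧ Y = 1))
    (hn : 10 ^ 7 * H * (2 + Real.log n) ^ 2 * √(Real.log c) ≤ n) :
    (c : ℝ) ^ (1 - 1 / √(Real.log c)) ≤ z ∧
    (z < radical z * radical (x * y) →
      (c : ℝ) ^ (1 - 1 / √(Real.log c)) < radical (a * b * c)) := by
  obtain ⟨ha, hb, hab, hc⟩ := ht
  have hac : Nat.Coprime a c := by rw [← hc]; simpa using hab
  have hbc : Nat.Coprime b c := by rw [← hc]; simpa using hab.symm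
  have hrad : ∀ m : ℕ, radical m = Pool.Agent.U964.ML.rad m := fun _ => rfl
  have hradabc : radical (a * b * c) = radical a * radical b * radical c := by
    rw [hrad, hrad, hrad, hrad, Pool.Agent.U964.ML.rad_mul (Nat.Coprime.mul_left hac hbc),
      Pool.Agent.U964.ML.rad_mul hab]
  have hxy : Nat.Coprime x y := by
    rcases hm with (⟨h1, h2, -⟩ | ⟨h1, h2, -⟩ | ⟨h1, h2, -⟩) | (⟨h1, h2, -⟩ | ⟨h1, h2, -⟩ | ⟨h1, h2, -⟩) <;>
      rw [h1, h2]
    · exact hab
    · exact hac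
    · exact hbc
    · exact hab.symm
    · exact hac.symm
    · exact hbc.symm
  have hx1 : 1 ≤ x := by
    rcases hm with (⟨h1, -, -⟩ | ⟨h1, -, -⟩ | ⟨h1, -, -⟩) | (⟨-, h1, -⟩ | ⟨-, h1, -⟩ | ⟨-, h1, -⟩) <;>
      omega
  have hy1 : 1 ≤ y := by
    rcases hm with (⟨-, h1, -⟩ | ⟨-, h1, -⟩ | ⟨-, h1, -⟩) | (⟨h1, -, -⟩ | ⟨h1, -, -⟩ | ⟨h1, -, -⟩) <;>
      omega
  have hxyc : x ≤ c ∧ y ≤ c := by
    rcases hm with (⟨h1, h2, -⟩ | ⟨h1, h2, -⟩ | ⟨h1, h2, -⟩) | (⟨h1, h2, -⟩ | ⟨h1, h2, -⟩ | ⟨h1, h2, -⟩) <;>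
      omega
  have hB : 1 ≤ B := by
    rcases Nat.eq_zero_or_pos B with h | h
    · rw [h, zero_mul] at hx; omega
    · exact h
  have hA : 1 ≤ A := by
    rcases Nat.eq_zero_or_pos A with h | h
    · rw [h, zero_mul] at hy; omega
    · exact h
  have hX : 1 ≤ X := by
    rcases Nat.eq_zero_or_pos X with h | h
    · rw [h, zero_pow (by omega), mul_zero] at hx; omega
    · exact h
  have hY : 1 ≤ Y := by
    rcases Nat.eq_zero_or_pos Y with h | h
    · rw [h, zero_pow (by omega), mul_zero] at hy; omega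
    · exact h
  have hcop : Nat.Coprime X Y := by
    have h1 : Nat.Coprime (X ^ n) (Y ^ n) := by
      rw [hx, hy] at hxy
      exact Nat.Coprime.coprime_mul_left (Nat.Coprime.coprime_mul_left_right hxy)
    exact (Nat.coprime_pow_left_iff (by omega) _ _).1 ((Nat.coprime_pow_right_iff (by omega) _ _).1 h1)
  -- the size of `c`
  have hc2 : 2 ≤ c := by omega
  have hcr2 : (2:ℝ) ≤ c := by exact_mod_cast hc2
  have hc0 : (0:ℝ) < c := by linarith
  have hl2 := Real.log_two_gt_d9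
  have hlc : Real.log 2 ≤ Real.log c := Real.log_le_log (by norm_num) hcr2
  have hs0 : 1 / 2 ≤ √(Real.log c) := by
    apply Real.le_sqrt_of_sq_le
    norm_num
    linarith
  have hHr : (1:ℝ) ≤ H := by exact_mod_cast hH
  have hln : 0 ≤ Real.log n := Real.log_natCast_nonneg n
  have h4 : (4:ℝ) ≤ (2 + Real.log n) ^ 2 := by nlinarith
  have hn7 : (2:ℝ) ≤ n := by
    have h5 : (10:ℝ) ^ 7 * 1 * 4 * (1 / 2) ≤ 10 ^ 7 * H * (2 + Real.log n) ^ 2 * √(Real.log c) := by
      gcongr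
    norm_num at h5
    linarith
  have hcn : (2:ℝ) ^ n ≤ c := by
    have h5 : 2 ^ n ≤ c := by
      have h6 : 2 ≤ X ∨ 2 ≤ Y := by omega
      rcases h6 with h6 | h6
      · calc 2 ^ n ≤ X ^ n := Nat.pow_le_pow_left h6 n
          _ ≤ B * X ^ n := Nat.le_mul_of_pos_left _ hB
          _ = x := hx.symm
          _ ≤ c := hxyc.1
      · calc 2 ^ n ≤ Y ^ n := Nat.pow_le_pow_left h6 n
          _ ≤ A * Y ^ n := Nat.le_mul_of_pos_left _ hA
          _ = y := hy.symm
          _ ≤ c := hxyc.2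
    exact_mod_cast h5
  have hlc1 : 1 ≤ Real.log c := by
    have h5 := Real.log_le_log (by positivity) hcn
    rw [Real.log_pow] at h5
    nlinarith
  obtain ⟨s, hs⟩ : ∃ s : ℝ, s = √(Real.log c) := ⟨_, rfl⟩
  have hs1 : 1 ≤ s := by rw [hs]; exact Real.one_le_sqrt.2 hlc1
  have hs00 : 0 < s := by linarith
  rw [← hs] at hn ⊢
  obtain ⟨δ, hδ⟩ : ∃ δ : ℝ, δ = 1 / s := ⟨_, rfl⟩
  have hδ0 : 0 < δ := by rw [hδ]; positivity
  have hδ1 : δ ≤ 1 := by rw [hδ, div_le_one hs00]; exact hs1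
  have hn' : 10 ^ 7 * H * (2 + Real.log n) ^ 2 ≤ δ * n := by
    rw [hδ, one_div, ← div_eq_inv_mul, le_div_iff₀ hs00]
    exact hn
  rw [← hδ]
  have hmain : (c : ℝ) ^ (1 - δ) ≤ z := by
    have hgap : ∀ W : ℝ, 1 ≤ W → (W = (x:ℝ) ∨ W = (y:ℝ)) → W ^ (1 - δ) ≤ |(y:ℝ) - x| := by
      intro W hW hWor
      have h5 := Pool.Agent.U964.ML.ExplK.gap_one A B X Y n H δ hA hB hH hAH hBH hX hY hcop hXY
        hδ0 hδ1 hn1 hn' W hW (by
          rcases hWor with h | h
          · left; rw [h, hx]; push_cast; rfl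
          · right; rw [h, hy]; push_cast; rfl)
      have e1 : (y:ℝ) = A * (Y:ℝ) ^ n := by rw [hy]; push_cast; rfl
      have e2 : (x:ℝ) = B * (X:ℝ) ^ n := by rw [hx]; push_cast; rfl
      rw [e1, e2]
      exact h5
    have hcle : (c : ℝ) ^ (1 - δ) ≤ c := by
      calc (c : ℝ) ^ (1 - δ) ≤ (c:ℝ) ^ (1:ℝ) :=
            Real.rpow_le_rpow_of_exponent_le (by linarith) (by linarith)
        _ = c := Real.rpow_one _
    have hc1 : (1:ℝ) ≤ c := by linarith
    rcases hm with (⟨h1, h2, h3⟩ | ⟨h1, h2, h3⟩ | ⟨h1, h2, h3⟩) | (⟨h1, h2, h3⟩ | ⟨h1, h2, h3⟩ | ⟨h1, h2, h3⟩)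
    · rw [h3]; exact hcle
    · have h5 := hgap c hc1 (Or.inr (by rw [h2]))
      have h6 : (y:ℝ) - x = z := by
        have h7 : x + z = y := by omega
        have h8 : (x:ℝ) + z = y := by exact_mod_cast h7
        linarith
      rwa [h6, abs_of_nonneg (Nat.cast_nonneg z)] at h5
    · have h5 := hgap c hc1 (Or.inr (by rw [h2]))
      have h6 : (y:ℝ) - x = z := by
        have h7 : x + z = y := by omega
        have h8 : (x:ℝ) + z = y := by exact_mod_cast h7
        linarith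
      rwa [h6, abs_of_nonneg (Nat.cast_nonneg z)] at h5
    · rw [h3]; exact hcle
    · have h5 := hgap c hc1 (Or.inl (by rw [h2]))
      have h6 : (y:ℝ) - x = -z := by
        have h7 : y + z = x := by omega
        have h8 : (y:ℝ) + z = x := by exact_mod_cast h7
        linarith
      rwa [h6, abs_neg, abs_of_nonneg (Nat.cast_nonneg z)] at h5
    · have h5 := hgap c hc1 (Or.inl (by rw [h2]))
      have h6 : (y:ℝ) - x = -z := by
        have h7 : y + z = x := by omega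
        have h8 : (y:ℝ) + z = x := by exact_mod_cast h7
        linarith
      rwa [h6, abs_neg, abs_of_nonneg (Nat.cast_nonneg z)] at h5
  refine ⟨hmain, fun hz => ?_⟩
  have hprod : radical z * radical (x * y) = radical (a * b * c) := by
    rw [hradabc, hrad (x * y), Pool.Agent.U964.ML.rad_mul hxy, ← hrad, ← hrad]
    rcases hm with (⟨h1, h2, h3⟩ | ⟨h1, h2, h3⟩ | ⟨h1, h2, h3⟩) | (⟨h1, h2, h3⟩ | ⟨h1, h2, h3⟩ | ⟨h1, h2, h3⟩) <;>
      rw [h1, h2, h3] <;> ring
  rw [hprod] at hz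
  exact lt_of_le_of_lt hmain (by exact_mod_cast hz)

end Pool.Agent.Results.MP_4ab349_nt.ExplicitHighPowers
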