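import Pool.Agent.U449.BV.E
import Pool.Agent.Results.MP_4ab349_nt.SequenceMembers
import Pool.Agent.U951.TR.Nat

/-!
# The inequality `T < - η √(log c)` for all abc-triples with a member near `f(u, v) + g(u) + h(v)`, `u`, `v` in arbitrary sets

For an abc-triple `a + b = c` let `T(a, b, c) = log (c / rad(abc)) / √(log c)`. Let `A ≥ 1`, `0 ≤ η < 7 / 9` and `K`
real, and let `F(η) = 5 (10 η + 9) / 84` for `η ≤ 1 / 2` and `(9 η + 8) / 15` for `η > 1 / 2` (`SequenceMembers.f`).
Let `f(x, y)` be an integer polynomial with a monomial which contains both variables, `U`, `V` ARBITRARY finite sets of at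
least `X ^ δ` integers, and `g`, `h` ARBITRARY real functions such that `φ(u, v) = f(u, v) + g(u) + h(v)` has absolute value
at most `X` on `U × V`. Let `θ ≥ 0` and `A F(η) + θ < δ ≤ 1`. For all the pairs `(u, v)`, apart from a proportion of at most
`X ^ (-ρ)`: ALL abc-triples with a member `m` which differs from `φ(u, v)` by at most `X ^ θ`, and with `c ≤ m ^ A`, satisfy
`T(a, b, c) < - η √(log c) - K / √(log c)`, that is `rad(abc) > e^K c^(1 + η)`. The same holds for the values of all functions
`φ(u, v)` of two variables with few coincidences (`Rare`); `ρ > 0` depends only on the exponents and the degree of `f`.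

The question asks for `T < 1`; already for `η = 0` the inequality is stronger than this. Since `U`, `V`, `g` and `h` are
arbitrary, the values have no arithmetic structure, and a value can be taken by very many pairs. So the number of the
exceptions does not give the result directly. Proof: the inequality of Cauchy and Schwarz; for most pairs `u, u'` the
difference `φ(u, v) - φ(u', v)` is small for few `v` (`Pool.Agent.U449.BV` of helper449). The members of the exceptional
triples are counted in `Pool.Agent.Y854.AB.count` (a starting library): there are at most `X ^ (A F(η) + ε)` of them up to `X`.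
-/

set_option autoImplicit false

namespace Pool.Agent.Results.MP_4ab349_nt.MixedPolynomials

open SequenceMembers (Good T rad)
open Pool.Agent.U449.BV (Rare OnProducts on_products_set polys)

/-- all abc-triples with a member `m`, `|m - x| ≤ W`, and `c ≤ m ^ A` satisfy
`T(a, b, c) < - η √(log c) - K / √(log c)` -/
def Near (A η K : ℝ) (W x : ℝ) : Prop :=
  ∀ m : ℕ, |(m : ℝ) - x| ≤ W → Good A η K m

lemma s_nonneg {A η : ℝ} (hA : 1 ≤ A) (hη : 0 ≤ η) : 0 ≤ A * SequenceMembers.f η := by
  refine mul_nonneg (by linarith) ?_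
  unfold SequenceMembers.f
  split_ifs <;> positivity

lemma count {A η : ℝ} (K : ℝ) (hA : 1 ≤ A) (hη : 0 ≤ η) (hη1 : η < 7 / 9) (ε : ℝ) (hε : 0 < ε) :
    ∃ C : ℝ, ∀ X : ℝ, 1 ≤ X →
      {t : ℕ | t ∈ {t : ℕ | 1 ≤ t ∧ t ∈ Pool.Agent.Y854.AB.Bad (Real.exp K) (1 + η) A} ∧ (t : ℝ) ≤ X}.Finite ∧
      ({t : ℕ | t ∈ {t : ℕ | 1 ≤ t ∧ t ∈ Pool.Agent.Y854.AB.Bad (Real.exp K) (1 + η) A} ∧ (t : ℝ) ≤ X}.ncard : ℝ) ≤
        C * X ^ (A * SequenceMembers.f η + ε) := by
  refine Pool.Agent.U951.TR.count_of_card _ (s_nonneg hA hη) (fun ξ hξ => ?_) ε hε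
  obtain ⟨C, hC⟩ := Pool.Agent.Y854.AB.count (Real.exp K) (1 + η) A (by linarith) (by linarith) ξ hξ
  rw [SequenceMembers.Fx_eq η hη hη1] at hC
  exact ⟨C, hC⟩

lemma near_of {A η K W x : ℝ}
    (h : ∀ t ∈ {t : ℕ | 1 ≤ t ∧ t ∈ Pool.Agent.Y854.AB.Bad (Real.exp K) (1 + η) A}, ¬ |(t : ℝ) - x| ≤ W) :
    Near A η K W x := by
  intro m hm
  apply SequenceMembers.good_of
  intro hb
  refine h m ⟨?_, hb⟩ hm
  obtain ⟨a, b, ha, hb, -, h1, -⟩ := hb
  omega

/-- **Theorem.** Let `A ≥ 1`, `0 ≤ η < 7 / 9`, `K` real and `θ ≥ 0`. The property `Near`, with windows of length `X ^ θ`, holds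
for almost all values of functions of two variables with few coincidences, on arbitrary finite sets of at least `X ^ δ`
elements, `A F(η) + θ < δ ≤ 1` (`OnProducts`). Coincidences are rare for `f(a, b) + g(a) + h(b)`, where `f` is any integer
polynomial with a monomial which contains both variables, and `g` and `h` are arbitrary real functions, on arbitrary
finite sets of integers. -/
theorem result :
    (∀ A η K θ : ℝ, 1 ≤ A → 0 ≤ η → η < 7 / 9 → 0 ≤ θ →
      OnProducts (A * SequenceMembers.f η + θ) θ (Near A η K)) ∧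
    ∀ (d : ℕ) (f : MvPolynomial (Fin 2) ℤ), f.totalDegree ≤ d → (∃ m ∈ f.support, m 0 ≠ 0 ∧ m 1 ≠ 0) →
      ∀ (g h : ℤ → ℝ) (A B : Finset ℤ),
        Rare d A B (fun a b => ((MvPolynomial.eval ![a, b] f : ℤ) : ℝ) + g a + h b) := by
  refine ⟨?_, polys⟩
  intro A η K θ hA hη hη1 hθ
  refine (on_products_set {t : ℕ | 1 ≤ t ∧ t ∈ Pool.Agent.Y854.AB.Bad (Real.exp K) (1 + η) A} (fun j => (j : ℝ))
    (s := A * SequenceMembers.f η) (κ := θ) (s_nonneg hA hη) hθ (count K hA hη hη1)).mono fun W x₀ _ hg => ?_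
  exact near_of (fun t ht hw => hg t hw ht)

end Pool.Agent.Results.MP_4ab349_nt.MixedPolynomials
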